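import Mathlib

/-!
The group of integer valued integrable functions on a nonseparable atomless measure space.
-/

open MeasureTheory Filter Topology Set
open scoped ENNReal unitInterval

namespace Pool.Agent.P.MP_d16342_al

/-- the measure -/
noncomputable def mu : Measure (ℝ × I) := (Measure.count : Measure ℝ).prod volume

/-- integer valued `L¹` -/
abbrev M : Type := Lp ℤ 1 mu

lemma coe_nsmul (n : ℕ) (f : M) : ⇑(n • f) =ᵐ[mu] fun a => (n : ℤ) * f a := by
  induction n with
  | zero =>
    simp only [zero_smul, Nat.cast_zero, zero_mul]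
    exact Lp.coeFn_zero _ _ _
  | succ n ih =>
    rw [succ_nsmul]
    filter_upwards [ih, Lp.coeFn_add (n • f) f] with a h1 h2
    rw [h2, Pi.add_apply, h1]
    push_cast; ring

lemma le_norm_nsmul (n : ℕ) (f : M) : n * ‖f‖ ≤ ‖n • f‖ := by
  rcases Nat.eq_zero_or_pos n with rfl | hn
  · simp
  have hn' : (0 : ℝ) < n := by exact_mod_cast hn
  have : ‖f‖ ≤ (n : ℝ)⁻¹ * ‖n • f‖ := by
    apply Lp.norm_le_mul_norm_of_ae_le_mul
    filter_upwards [coe_nsmul n f] with a ha
    rw [ha, norm_mul, ← mul_assoc]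
    have : ‖(n : ℤ)‖ = n := by simp
    rw [this, inv_mul_cancel₀ hn'.ne', one_mul]
  calc n * ‖f‖ ≤ n * ((n : ℝ)⁻¹ * ‖n • f‖) := by gcongr
    _ = ‖n • f‖ := by rw [← mul_assoc, mul_inv_cancel₀ hn'.ne', one_mul]

lemma lip_div (p : ℕ) (hp : 0 < p) : LipschitzWith 1 (fun n : ℤ => n / (p : ℤ)) := by
  apply LipschitzWith.of_dist_le_mul
  intro x y
  simp only [NNReal.coe_one, one_mul, Int.dist_eq]
  have hp' : (0 : ℤ) < p := by exact_mod_cast hp
  have key : ∀ a b : ℤ, a ≤ b → b / (p : ℤ) - a / (p : ℤ) ≤ b - a := by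
    intro a b hab
    obtain ⟨k, rfl⟩ := Int.le.dest hab
    have h1 : (a + k) / (p : ℤ) ≤ (a + k * p) / (p : ℤ) := by
      apply Int.ediv_le_ediv hp'
      have : (k : ℤ) ≤ k * p := by nlinarith [Int.natCast_nonneg k]
      linarith
    rw [Int.add_mul_ediv_right _ _ hp'.ne'] at h1
    linarith
  have key2 : |x / (p : ℤ) - y / (p : ℤ)| ≤ |x - y| := by
    rcases le_total x y with h | h
    · have h1 := key x y h
      have h2 : x / (p : ℤ) ≤ y / (p : ℤ) := Int.ediv_le_ediv hp' h
      rw [abs_sub_comm, abs_sub_comm x y, abs_of_nonneg (by linarith), abs_of_nonneg (by linarith)]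
      exact h1
    · have h1 := key y x h
      have h2 : y / (p : ℤ) ≤ x / (p : ℤ) := Int.ediv_le_ediv hp' h
      rw [abs_of_nonneg (by linarith), abs_of_nonneg (by linarith)]
      exact h1
  exact_mod_cast key2

lemma isClosed_mul (p : ℕ) (hp : 0 < p) : IsClosed {f : M | ∃ g : M, f = p • g} := by
  have h0 : (fun n : ℤ => n / (p : ℤ)) 0 = 0 := by simp
  have : {f : M | ∃ g : M, f = p • g} = {f : M | f = p • (lip_div p hp).compLp h0 f} := by
    ext f
    constructor
    · rintro ⟨g, rfl⟩
      show p • g = p • _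
      congr 1
      apply Lp.ext
      filter_upwards [(lip_div p hp).coeFn_compLp h0 (p • g), coe_nsmul p g] with a h1 h2
      rw [h1, Function.comp_apply, h2]
      have hp' : (p : ℤ) ≠ 0 := by exact_mod_cast hp.ne'
      rw [Int.mul_ediv_cancel_left _ hp']
    · intro h
      exact ⟨_, h⟩
  rw [this]
  apply isClosed_eq continuous_id
  exact ((lip_div p hp).continuous_compLp h0).const_smul p

lemma eq_zero_of_forall_prime (f : M) (h : ∀ p : ℕ, p.Prime → ∃ g : M, f = p • g) : f = 0 := by
  have h1 : ∀ p : ℕ, ∀ᵐ a ∂mu, p.Prime → (p : ℤ) ∣ f a := by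
    intro p
    by_cases hp : p.Prime
    · obtain ⟨g, rfl⟩ := h p hp
      filter_upwards [coe_nsmul p g] with a ha _
      rw [ha]; exact dvd_mul_right _ _
    · exact Eventually.of_forall fun a h => absurd h hp
  rw [← ae_all_iff] at h1
  apply Lp.ext
  filter_upwards [h1, Lp.coeFn_zero ℤ 1 mu] with a ha h0
  rw [h0, Pi.zero_apply]
  by_contra hne
  obtain ⟨p, hp1, hp2⟩ := Nat.exists_infinite_primes ((f a).natAbs + 1)
  have := Int.natCast_dvd.1 (ha p hp2)
  have := Nat.le_of_dvd (Int.natAbs_pos.2 hne) this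
  omega

/-- the slab -/
def slab (t : ℝ) : Set (ℝ × I) := {w | (w.2 : ℝ) ≤ t}

lemma measurableSet_slab (t : ℝ) : MeasurableSet (slab t) :=
  measurableSet_le (measurable_subtype_coe.comp measurable_snd) measurable_const

/-- the contraction -/
noncomputable def cut (f : M) (t : ℝ) : M :=
  ((Lp.memLp f).indicator (measurableSet_slab t)).toLp _

lemma coe_cut (f : M) (t : ℝ) : ⇑(cut f t) =ᵐ[mu] (slab t).indicator f :=
  MemLp.coeFn_toLp _

lemma ae_ne (s : ℝ) : ∀ᵐ w ∂mu, (w.2 : ℝ) ≠ s := by
  rw [ae_iff]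
  have : {a : ℝ × I | ¬ (a.2 : ℝ) ≠ s} = univ ×ˢ {x : I | (x : ℝ) = s} := by
    ext a; simp
  rw [this, mu, Measure.prod_prod]
  have h : volume {x : I | (x : ℝ) = s} = 0 := by
    apply Set.Subsingleton.measure_zero
    intro x hx y hy
    exact Subtype.ext (hx.trans hy.symm)
  rw [h, mul_zero]

lemma continuous_cut (f : M) : Continuous (cut f) := by
  rw [continuous_iff_continuousAt]
  intro s
  rw [ContinuousAt, Lp.tendsto_Lp_iff_tendsto_eLpNorm']
  have hm : AEStronglyMeasurable f mu := Lp.aestronglyMeasurable f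
  have h1 : (fun t => eLpNorm (⇑(cut f t) - ⇑(cut f s)) 1 mu) =
      fun t => ∫⁻ w, ‖(slab t).indicator f w - (slab s).indicator f w‖ₑ ∂mu := by
    funext t
    rw [eLpNorm_one_eq_lintegral_enorm]
    apply lintegral_congr_ae
    filter_upwards [coe_cut f t, coe_cut f s] with w h1 h2
    rw [Pi.sub_apply, h1, h2]
  rw [h1]
  have h2 : (0 : ℝ≥0∞) = ∫⁻ _ : ℝ × I, 0 ∂mu := by simp
  rw [h2]
  apply tendsto_lintegral_filter_of_dominated_convergence' (fun w => ‖f w‖ₑ)
  · refine Eventually.of_forall fun t => ?_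
    exact ((hm.indicator (measurableSet_slab t)).sub (hm.indicator (measurableSet_slab s))).enorm
  · refine Eventually.of_forall fun t => Eventually.of_forall fun w => ?_
    by_cases h1 : w ∈ slab t <;> by_cases h2 : w ∈ slab s <;> simp [indicator, h1, h2]
  · have := (Lp.memLp f).2
    rw [eLpNorm_one_eq_lintegral_enorm] at this
    exact this.ne
  · filter_upwards [ae_ne s] with w hw
    apply tendsto_const_nhds.congr'
    rcases lt_or_gt_of_ne hw with h | h
    · filter_upwards [lt_mem_nhds h] with t ht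
      have h1 : w ∈ slab t := le_of_lt ht
      have h2 : w ∈ slab s := le_of_lt h
      simp [indicator, h1, h2]
    · filter_upwards [gt_mem_nhds h] with t ht
      have h1 : w ∉ slab t := not_le.2 ht
      have h2 : w ∉ slab s := not_le.2 h
      simp [indicator, h1, h2]

lemma cut_one (f : M) : cut f 1 = f := by
  apply Lp.ext
  filter_upwards [coe_cut f 1] with w hw
  have : w ∈ slab 1 := w.2.2.2
  rw [hw, indicator_of_mem this]

lemma cut_neg (f : M) : cut f (-1) = 0 := by
  apply Lp.ext
  filter_upwards [coe_cut f (-1), Lp.coeFn_zero ℤ 1 mu] with w hw h0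
  have : w ∉ slab (-1) := by
    intro h
    have h1 : (w.2 : ℝ) ≤ -1 := h
    have := w.2.2.1
    linarith
  rw [hw, indicator_of_notMem this, h0, Pi.zero_apply]

instance : PreconnectedSpace M := by
  constructor
  apply isPreconnected_of_forall (0 : M)
  intro f _
  refine ⟨range (cut f), subset_univ _, ⟨-1, cut_neg f⟩, ⟨1, cut_one f⟩, ?_⟩
  exact isPreconnected_range (continuous_cut f)

lemma mu_fiber (r : ℝ) : mu ({r} ×ˢ univ) = 1 := by
  rw [mu, Measure.prod_prod]; simp

/-- the uncountable separated family -/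
noncomputable def bump (r : ℝ) : M :=
  indicatorConstLp 1 ((measurableSet_singleton r).prod MeasurableSet.univ)
    (by rw [mu_fiber]; exact ENNReal.one_ne_top) (1 : ℤ)

lemma bump_sep {r s : ℝ} (h : r ≠ s) : 1 ≤ dist (bump r) (bump s) := by
  have h1 : ‖bump r‖ = 1 := by
    rw [bump, norm_indicatorConstLp one_ne_zero ENNReal.one_ne_top]
    simp [Measure.real, mu_fiber]
  rw [dist_eq_norm, ← h1]
  apply Lp.norm_le_norm_of_ae_le
  filter_upwards [Lp.coeFn_sub (bump r) (bump s),
    indicatorConstLp_coeFn (p := 1) (μ := mu)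
      (hs := (measurableSet_singleton r).prod (MeasurableSet.univ (α := I)))
      (hμs := by rw [mu_fiber]; exact ENNReal.one_ne_top) (c := (1 : ℤ)),
    indicatorConstLp_coeFn (p := 1) (μ := mu)
      (hs := (measurableSet_singleton s).prod (MeasurableSet.univ (α := I)))
      (hμs := by rw [mu_fiber]; exact ENNReal.one_ne_top) (c := (1 : ℤ))] with w h1 h2 h3
  rw [h1, Pi.sub_apply]
  have h2' : bump r w = _ := h2
  have h3' : bump s w = _ := h3
  rw [h2', h3']
  by_cases hw : w.1 = r
  · have : w.1 ≠ s := hw ▸ h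
    simp [indicator, hw, h]
  · simp [indicator, hw]

lemma not_separable : ¬ TopologicalSpace.SeparableSpace M := by
  intro hs
  have hd : Pairwise (Function.onFun Disjoint fun r : ℝ => Metric.ball (bump r) (1 / 2)) := by
    intro r s h
    apply Metric.ball_disjoint_ball
    have := bump_sep h
    linarith
  have := hd.countable_of_isOpen_disjoint (fun r => Metric.isOpen_ball)
    (fun r => Metric.nonempty_ball.2 (by norm_num))
  exact not_countable this

end Pool.Agent.P.MP_d16342_al
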