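import Mathlib
import Pool.Agent.P.MP_d16342_al.IntL1

/-!
The counterexample group `G` and its properties.
-/

open Filter Topology Set

namespace Pool.Agent.P.MP_d16342_al

/-- a sequence killed eventually by every functional of a space over a finite field
is eventually zero -/
lemma eventually_zero_of_dual {F V : Type*} [Field F] [Finite F] [AddCommGroup V] [Module F V]
    (w : ℕ → V) (h : ∀ χ : V →ₗ[F] F, ∀ᶠ n in atTop, χ (w n) = 0) :
    ∀ᶠ n in atTop, w n = 0 := by
  classical
  obtain ⟨B, hB, hspan, hli⟩ := exists_linearIndependent F (range w)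
  have hli' : LinearIndepOn F id B := hli
  have hBfin : B.Finite := by
    let b := Module.Basis.extend hli'
    let χ : V →ₗ[F] F := b.constr F (fun _ => (1 : F))
    obtain ⟨N, hN⟩ := eventually_atTop.1 (h χ)
    apply ((finite_Iio N).image w).subset
    intro v hv
    obtain ⟨n, rfl⟩ := hB hv
    refine ⟨n, ?_, rfl⟩
    by_contra hn
    have h0 := hN n (not_lt.1 hn)
    have hmem : w n ∈ hli'.extend (subset_univ B) := hli'.subset_extend _ hv
    have h1 : b ⟨w n, hmem⟩ = w n := Module.Basis.extend_apply_self hli' ⟨w n, hmem⟩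
    have h2 : χ (b ⟨w n, hmem⟩) = 1 := b.constr_basis F _ _
    rw [h1, h0] at h2
    exact zero_ne_one h2
  have hfin : (range w).Finite := by
    have h1 : ((Submodule.span F B : Submodule F V) : Set V).Finite := by
      have : Module.Finite F (Submodule.span F B) := Module.Finite.span_of_finite F hBfin
      have : Finite (Submodule.span F B) := Module.finite_of_finite F
      exact Set.toFinite _
    rw [hspan] at h1
    exact h1.subset Submodule.subset_span
  have h2 : ∀ v ∈ range w, ∀ᶠ n in atTop, w n = v → v = 0 := by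
    intro v _
    by_cases hv : v = 0
    · exact Eventually.of_forall fun _ _ => hv
    · obtain ⟨χ, hχ⟩ := Module.Projective.exists_dual_ne_zero F hv
      filter_upwards [h χ] with n hn hnv
      exact absurd (hnv ▸ hn) hχ
  filter_upwards [(eventually_all_finite hfin).2 h2] with n hn
  exact hn (w n) (mem_range_self n) rfl

lemma exists_eq_nsmul_of_mkQ {A : Type*} [AddCommGroup A] (p : ℕ) (x : A)
    (h : ModN.mkQ p x = 0) : ∃ y, x = p • y := by
  have h1 : x ∈ LinearMap.range (LinearMap.lsmul ℤ A p) :=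
    (Submodule.Quotient.mk_eq_zero _).1 h
  obtain ⟨y, hy⟩ := h1
  exact ⟨y, by simpa using hy.symm⟩

lemma eventually_mem_of_hom {A : Type*} [AddCommGroup A] (p : ℕ) (hp : p.Prime) (w : ℕ → A)
    (h : ∀ χ : A →+ ZMod p, ∀ᶠ n in atTop, χ (w n) = 0) :
    ∀ᶠ n in atTop, ∃ y, w n = p • y := by
  have : Fact p.Prime := ⟨hp⟩
  have := eventually_zero_of_dual (F := ZMod p) (fun n => ModN.mkQ p (w n))
    (fun χ => h (χ.toAddMonoidHom.comp (ModN.mkQ p)))
  filter_upwards [this] with n hn
  exact exists_eq_nsmul_of_mkQ p _ hn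

lemma mem_of_hom {A : Type*} [AddCommGroup A] (p : ℕ) (hp : p.Prime) (x : A)
    (h : ∀ χ : A →+ ZMod p, χ x = 0) : ∃ y, x = p • y :=
  (eventually_mem_of_hom p hp (fun _ => x) (fun χ => Eventually.of_forall fun _ => h χ)).exists.choose_spec

/-- index set -/
def J : Type := Σ p : Nat.Primes, (M →+ ZMod p)

/-- cyclic group of order `p ^ 2`, discrete -/
def Z2 (j : J) : Type := ZMod ((j.1 : ℕ) ^ 2)

instance (j : J) : AddCommGroup (Z2 j) := inferInstanceAs (AddCommGroup (ZMod _))
instance (j : J) : UniformSpace (Z2 j) := ⊥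
instance (j : J) : DiscreteUniformity (Z2 j) := ⟨rfl⟩
instance (j : J) : Finite (Z2 j) :=
  haveI : NeZero ((j.1 : ℕ) ^ 2) := ⟨pow_ne_zero 2 j.1.2.ne_zero⟩
  inferInstanceAs (Finite (ZMod _))

/-- reduction mod `p` -/
def red (j : J) : Z2 j →+ ZMod j.1 :=
  (ZMod.castHom (dvd_pow_self (j.1 : ℕ) two_ne_zero) (ZMod j.1)).toAddMonoidHom

lemma red_surj (j : J) : Function.Surjective (red j) :=
  ZMod.castHom_surjective (dvd_pow_self (j.1 : ℕ) two_ne_zero)

lemma red_nsmul (j : J) (n : ℕ) (h : (j.1 : ℕ) ∣ n) (x : Z2 j) : red j (n • x) = 0 := by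
  rw [map_nsmul, nsmul_eq_mul, (ZMod.natCast_eq_zero_iff _ _).2 h, zero_mul]

lemma zmod_aux (p : ℕ) (hp : p.Prime) (x : ZMod (p ^ 2)) (h : p • x = 0) :
    ZMod.castHom (dvd_pow_self p two_ne_zero) (ZMod p) x = 0 := by
  have : NeZero (p ^ 2) := ⟨pow_ne_zero 2 hp.ne_zero⟩
  obtain ⟨n, rfl⟩ := ZMod.natCast_zmod_surjective x
  rw [map_natCast, ZMod.natCast_eq_zero_iff]
  rw [nsmul_eq_mul, ← Nat.cast_mul, ZMod.natCast_eq_zero_iff, pow_two] at h
  exact Nat.dvd_of_mul_dvd_mul_left hp.pos h

lemma red_eq_zero (j : J) (x : Z2 j) (h : (j.1 : ℕ) • x = 0) : red j x = 0 :=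
  zmod_aux _ j.1.2 x h

lemma zmod_aux2 (N n : ℕ) (hn : n.Coprime N) (x : ZMod N) (h : n • x = 0) : x = 0 := by
  rw [nsmul_eq_mul] at h
  exact ((ZMod.isUnit_iff_coprime n N).2 hn).mul_right_eq_zero.1 h

lemma eq_zero_of_coprime (j : J) (n : ℕ) (hn : n.Coprime j.1) (x : Z2 j) (h : n • x = 0) :
    x = 0 :=
  zmod_aux2 _ n (hn.pow_right 2) x h

/-- the compact group -/
abbrev K : Type := ∀ j : J, Z2 j

/-- the counterexample -/
def G : AddSubgroup (K × M) where
  carrier := {x | ∀ j, red j (x.1 j) = j.2 x.2}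
  add_mem' := by
    intro a b ha hb j
    simp [ha j, hb j]
  zero_mem' := by intro j; simp
  neg_mem' := by
    intro a ha j
    simp [ha j]

lemma mem_G {x : K × M} : x ∈ G ↔ ∀ j, red j (x.1 j) = j.2 x.2 := Iff.rfl

lemma seq_closed (u : ℕ → K × M) (hu : ∀ n, u n ∈ G) (z : K × M)
    (hz : Tendsto u atTop (𝓝 z)) : z ∈ G := by
  have h1 : ∀ j : J, ∀ᶠ n in atTop, j.2 (u n).2 = red j (z.1 j) := by
    intro j
    have : Tendsto (fun n => (u n).1 j) atTop (𝓝 (z.1 j)) :=
      ((continuous_apply j).comp continuous_fst).continuousAt.tendsto.comp hz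
    rw [nhds_discrete, tendsto_pure] at this
    filter_upwards [this] with n hn
    rw [← hn, hu n j]
  intro j
  obtain ⟨p, χ⟩ := j
  have h2 : ∀ᶠ n in atTop, ∃ y, (u (n + 1)).2 - (u n).2 = (p : ℕ) • y := by
    apply eventually_mem_of_hom p p.2
    intro ψ
    have h3 := h1 ⟨p, ψ⟩
    filter_upwards [h3, (tendsto_add_atTop_nat 1).eventually h3] with n h4 h5
    rw [map_sub]
    exact sub_eq_zero.2 (h5.trans h4.symm)
  obtain ⟨N, hN⟩ := eventually_atTop.1 (h2.and (h1 ⟨p, χ⟩))
  have h3 : ∀ n, N ≤ n → ∃ y, (u n).2 - (u N).2 = (p : ℕ) • y := by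
    intro n hn
    induction n, hn using Nat.le_induction with
    | base => exact ⟨0, by simp⟩
    | succ n hn ih =>
      obtain ⟨y, hy⟩ := ih
      obtain ⟨y', hy'⟩ := (hN n hn).1
      exact ⟨y + y', by rw [smul_add, ← hy, ← hy']; abel⟩
  have h4 : ∃ y, z.2 - (u N).2 = (p : ℕ) • y := by
    have ht : Tendsto (fun n => (u n).2 - (u N).2) atTop (𝓝 (z.2 - (u N).2)) :=
      (continuous_snd.continuousAt.tendsto.comp hz).sub_const _
    exact (isClosed_mul p p.2.pos).mem_of_tendsto ht (eventually_atTop.2 ⟨N, h3⟩)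
  obtain ⟨y, hy⟩ := h4
  have h5 : χ (z.2 - (u N).2) = 0 := by
    rw [hy, map_nsmul, nsmul_eq_mul, ZMod.natCast_self, zero_mul]
  rw [map_sub, sub_eq_zero] at h5
  exact ((hN N le_rfl).2.symm.trans h5.symm)

lemma seq_complete (u : ℕ → G) (hu : CauchySeq u) : ∃ x, Tendsto u atTop (𝓝 x) := by
  have h1 : CauchySeq (fun n => (u n : K × M)) :=
    uniformContinuous_subtype_val.comp_cauchySeq hu
  obtain ⟨z, hz⟩ := cauchySeq_tendsto_of_complete h1
  have hzG := seq_closed _ (fun n => (u n).2) z hz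
  exact ⟨⟨z, hzG⟩, tendsto_subtype_rng.2 hz⟩

lemma eq_zero_of_fst (x : K × M) (hx : x ∈ G) (h : x.1 = 0) : x = 0 := by
  have : x.2 = 0 := by
    apply eq_zero_of_forall_prime
    intro p hp
    apply mem_of_hom p hp
    intro χ
    have h2 : ∀ j : J, j.2 x.2 = 0 := by
      intro j
      rw [← hx j, h, Pi.zero_apply, map_zero]
    exact h2 ⟨⟨p, hp⟩, χ⟩
  exact Prod.ext h this

lemma connectedComponent_G : connectedComponent (0 : G) = {0} := by
  apply subset_antisymm
  · intro x hx
    have hc : Continuous (fun y : G => (y : K × M).1) := continuous_fst.comp continuous_subtype_val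
    have h1 := hc.image_connectedComponent_subset (0 : G) (mem_image_of_mem _ hx)
    rw [connectedComponent_eq_singleton] at h1
    exact Subtype.ext (eq_zero_of_fst _ x.2 h1)
  · intro x hx
    rw [hx]; exact mem_connectedComponent

lemma dense_of_finiteIndex (H : AddSubgroup M) [H.FiniteIndex] : Dense (H : Set M) := by
  have : H.topologicalClosure.FiniteIndex :=
    AddSubgroup.finiteIndex_of_le H.le_topologicalClosure
  have h1 : IsOpen (H.topologicalClosure : Set M) :=
    AddSubgroup.isOpen_of_isClosed_of_finiteIndex _ H.isClosed_topologicalClosure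
  have h2 : IsClopen (H.topologicalClosure : Set M) := ⟨H.isClosed_topologicalClosure, h1⟩
  have h3 := h2.eq_univ ⟨0, zero_mem _⟩
  rw [dense_iff_closure_eq]
  exact h3

lemma mem_closure_G (m : M) : ((0 : K), m) ∈ closure (G : Set (K × M)) := by
  classical
  rw [mem_closure_iff_nhds]
  intro t ht
  obtain ⟨u, hu, v, hv, huv⟩ := mem_nhds_prod_iff.1 ht
  rw [nhds_pi, Filter.mem_pi] at hu
  obtain ⟨I, hI, s, hs, hsu⟩ := hu
  have : Finite I := hI
  let ψ : M →+ (∀ j : I, ZMod j.1.1) := AddMonoidHom.pi (fun j => j.1.2)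
  have : ∀ j : I, NeZero (j.1.1 : ℕ) := fun j => ⟨j.1.1.2.ne_zero⟩
  have : ψ.ker.FiniteIndex := AddSubgroup.finiteIndex_ker ψ
  obtain ⟨m', hm'1, hm'2⟩ := (dense_of_finiteIndex ψ.ker).inter_nhds_nonempty hv
  let k : K := fun j => if j ∈ I then 0 else (red_surj j (j.2 m')).choose
  refine ⟨(k, m'), huv ⟨hsu ?_, hm'2⟩, ?_⟩
  · intro j hj
    simp only [k, if_pos hj]
    exact mem_of_mem_nhds (hs j)
  · intro j
    by_cases hj : j ∈ I
    · simp only [k, if_pos hj, map_zero]
      have : ψ m' = 0 := hm'1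
      exact (congrFun this ⟨j, hj⟩).symm
    · simp only [k, if_neg hj]
      exact (red_surj j (j.2 m')).choose_spec

/-- the socle of `K` is essential -/
lemma essential (S : Set K) (hS : IsClosed S) (hn : ∀ (n : ℕ), ∀ k ∈ S, n • k ∈ S)
    (h0 : ∀ k ∈ S, (∀ j, red j (k j) = 0) → k = 0) (k : K) (hk : k ∈ S) : k = 0 := by
  classical
  by_contra hne
  obtain ⟨j0, hj0⟩ := Function.ne_iff.1 hne
  obtain ⟨k', hk', j1, hj1, hk1⟩ : ∃ k' ∈ S, ∃ j1 : J, k' j1 ≠ 0 ∧
      ∀ j : J, j.1 = j1.1 → red j (k' j) = 0 := by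
    by_cases h : ∀ j : J, j.1 = j0.1 → red j (k j) = 0
    · exact ⟨k, hk, j0, hj0, h⟩
    · push Not at h
      obtain ⟨j1, h1, h2⟩ := h
      refine ⟨(j1.1 : ℕ) • k, hn _ _ hk, j1, fun h => h2 (red_eq_zero j1 _ h), ?_⟩
      intro j hj
      exact red_nsmul j _ (by rw [hj]) _
  let C : ℕ → Set K := fun r =>
    {s | s ∈ S ∧ s j1 ≠ 0 ∧ ∀ j : J, (j.1 : ℕ) ≤ r → red j (s j) = 0}
  have hclosed : ∀ r, IsClosed (C r) := by
    intro r
    refine hS.inter (IsClosed.inter ?_ ?_)
    · exact (isClosed_discrete {x : Z2 j1 | x ≠ 0}).preimage (continuous_apply j1)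
    · have : {s : K | ∀ j : J, (j.1 : ℕ) ≤ r → red j (s j) = 0} =
          ⋂ j : J, (fun s : K => s j) ⁻¹' {x | (j.1 : ℕ) ≤ r → red j x = 0} := by
        ext s; simp
      show IsClosed {s : K | ∀ j : J, (j.1 : ℕ) ≤ r → red j (s j) = 0}
      rw [this]
      exact isClosed_iInter fun j => (isClosed_discrete _).preimage (continuous_apply j)
  have hne : ∀ r, (C r).Nonempty := by
    intro r
    let n : ℕ := ∏ q ∈ (Finset.range (r + 1)).filter (fun q : ℕ => q.Prime ∧ q ≠ (j1.1 : ℕ)), q
    have hcop : n.Coprime j1.1 := by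
      apply Nat.Coprime.prod_left
      intro q hq
      obtain ⟨-, h1, h2⟩ := Finset.mem_filter.1 hq
      exact (Nat.coprime_primes h1 j1.1.2).2 h2
    refine ⟨n • k', hn _ _ hk', fun h => hj1 (eq_zero_of_coprime j1 n hcop _ h), ?_⟩
    intro j hj
    by_cases h : j.1 = j1.1
    · show red j (n • k' j) = 0
      rw [map_nsmul, hk1 j h, smul_zero]
    · apply red_nsmul
      apply Finset.dvd_prod_of_mem
      refine Finset.mem_filter.2 ⟨Finset.mem_range.2 (by omega), j.1.2, ?_⟩
      exact fun h' => h (Subtype.ext h')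
  obtain ⟨s, hs⟩ := IsCompact.nonempty_iInter_of_sequence_nonempty_isCompact_isClosed C
    (fun r s hs => ⟨hs.1, hs.2.1, fun j hj => hs.2.2 j (by omega)⟩) hne
    (hclosed 0).isCompact hclosed
  rw [mem_iInter] at hs
  have := h0 s (hs 0).1 (fun j => (hs j.1).2.2 j le_rfl)
  exact (hs 0).2.1 (by rw [this]; rfl)

/-- the neighbourhood witnessing local minimality -/
def V : Set G := {x | ‖(x : K × M).2‖ < 1}

lemma V_mem : V ∈ 𝓝 (0 : G) := by
  apply IsOpen.mem_nhds
  · exact isOpen_lt (continuous_norm.comp (continuous_snd.comp continuous_subtype_val))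
      continuous_const
  · simp [V]

lemma locally_minimal (H : Type) [AddCommGroup H] [TopologicalSpace H] [IsTopologicalAddGroup H]
    [T2Space H] (f : G ≃+ H) (hf : Continuous f) (hV : f '' V ∈ 𝓝 (0 : H)) : IsOpenMap f := by
  let φ : H →+ K × M := G.subtype.comp f.symm.toAddMonoidHom
  have hsm : ∀ n : ℕ, Tendsto (fun x : H => n • x) (𝓝 0) (𝓝 0) := by
    intro n
    have := (continuous_const_smul n : Continuous fun x : H => n • x).tendsto 0
    simpa using this
  have hsnd : Tendsto (fun x => (φ x).2) (𝓝 0) (𝓝 0) := by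
    rw [Metric.tendsto_nhds]
    intro ε hε
    obtain ⟨n, hn⟩ := exists_nat_gt (1 / ε)
    have hn0 : (0 : ℝ) < n := lt_trans (by positivity) hn
    filter_upwards [(hsm n).eventually hV] with x hx
    obtain ⟨g, hg, hgx⟩ := hx
    have h1 : φ (n • x) = g := by
      rw [← hgx]; simp [φ]
    have h2 : ‖n • (φ x).2‖ < 1 := by
      have : n • (φ x).2 = (g : K × M).2 := by rw [← h1, map_nsmul]; rfl
      rw [this]; exact hg
    have h3 := le_norm_nsmul n (φ x).2
    rw [dist_zero_right]
    rw [div_lt_iff₀ hε] at hn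
    by_contra h4
    push Not at h4
    nlinarith
  let S : Set K := {k | ClusterPt (k, (0 : M)) (map φ (𝓝 0))}
  have hS : IsClosed S :=
    (isClosed_setOfPred_clusterPt (f := map φ (𝓝 0))).preimage
      (f := fun k : K => (k, (0 : M))) (by fun_prop)
  have hn : ∀ (n : ℕ), ∀ k ∈ S, n • k ∈ S := by
    intro n k hk
    have h1 : Tendsto (fun z : K × M => n • z) (map φ (𝓝 0)) (map φ (𝓝 0)) := by
      rw [tendsto_map'_iff]
      have : (fun z : K × M => n • z) ∘ φ = φ ∘ (fun x : H => n • x) := by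
        funext x; simp
      rw [this]
      exact tendsto_map.comp (hsm n)
    have h2 := ClusterPt.map hk (continuous_const_smul n).continuousAt h1
    show ClusterPt _ _
    simpa using h2
  have h0 : ∀ k ∈ S, (∀ j, red j (k j) = 0) → k = 0 := by
    intro k hk hred
    have hG : (k, (0 : M)) ∈ G := fun j => by simp [hred j]
    have h1 : ClusterPt (⟨(k, 0), hG⟩ : G) (map f.symm (𝓝 0)) := by
      have := (IsInducing.subtypeVal (t := (G : Set (K × M)))).mapClusterPt_iff
        (x := (⟨(k, 0), hG⟩ : G)) (l := map f.symm (𝓝 0))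
      exact this.1 hk
    have h2 : ClusterPt (f ⟨(k, 0), hG⟩) (𝓝 (0 : H)) := by
      apply h1.map hf.continuousAt
      rw [tendsto_map'_iff]
      have : (f ∘ f.symm : H → H) = id := by funext x; simp
      rw [this]; exact tendsto_id
    have h3 : f ⟨(k, 0), hG⟩ = 0 := eq_of_nhds_neBot h2
    have h4 : (⟨(k, 0), hG⟩ : G) = 0 := by simpa using h3
    exact congrArg (fun g : G => (g : K × M).1) h4
  have hφ : Tendsto φ (𝓝 0) (𝓝 0) := by
    rw [tendsto_iff_ultrafilter]
    intro U hU
    obtain ⟨k, -, hk⟩ := isCompact_univ.ultrafilter_le_nhds (U.map (fun x => (φ x).1))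
      (by simp)
    have h1 : Tendsto φ U (𝓝 (k, 0)) := Tendsto.prodMk_nhds hk (hsnd.mono_left hU)
    have h2 : k ∈ S := by
      have : ClusterPt (k, (0 : M)) (map φ U) := ClusterPt.of_le_nhds h1
      exact this.mono (map_mono hU)
    have h3 := essential S hS hn h0 k h2
    rw [h3] at h1
    exact h1
  have hcont : Continuous f.symm := by
    apply continuous_of_continuousAt_zero f.symm
    rw [ContinuousAt, map_zero, tendsto_subtype_rng]
    exact hφ
  let e : G ≃ₜ H := { f.toEquiv with continuous_toFun := hf, continuous_invFun := hcont }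
  exact e.isOpenMap

/-- the closure of `G` as an abstract completion -/
noncomputable def pkg : AbstractCompletion G where
  space := closure (G : Set (K × M))
  coe := Set.inclusion subset_closure
  uniformStruct := inferInstance
  complete := isClosed_closure.completeSpace_coe
  separation := inferInstance
  isUniformInducing := (isUniformEmbedding_set_inclusion subset_closure).isUniformInducing
  dense := (denseRange_inclusion_iff subset_closure).2 subset_rfl

lemma exists_embedding : ∃ e : M → UniformSpace.Completion G, IsEmbedding e ∧ e 0 = 0 := by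
  let ψ : closure (G : Set (K × M)) ≃ᵤ UniformSpace.Completion G :=
    pkg.compareEquiv UniformSpace.Completion.cPkg
  let ι : M → closure (G : Set (K × M)) := fun m => ⟨(0, m), mem_closure_G m⟩
  have hι : IsEmbedding ι := by
    have h1 : IsEmbedding (Subtype.val ∘ ι) := isEmbedding_prodMkRight (0 : K)
    exact IsEmbedding.subtypeVal.of_comp_iff.1 h1
  refine ⟨ψ ∘ ι, ψ.toHomeomorph.isEmbedding.comp hι, ?_⟩
  have : ι 0 = pkg.coe 0 := rfl
  show ψ (ι 0) = 0
  rw [this]
  exact (pkg.compare_coe UniformSpace.Completion.cPkg 0).trans UniformSpace.Completion.coe_zero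

lemma not_secondCountable :
    ¬ SecondCountableTopology (connectedComponent (0 : UniformSpace.Completion G)) := by
  intro h
  obtain ⟨e, he, h0⟩ := exists_embedding
  have hsub : ∀ m, e m ∈ connectedComponent (0 : UniformSpace.Completion G) := fun m =>
    (isPreconnected_range he.continuous).subset_connectedComponent ⟨0, h0⟩ (mem_range_self m)
  have h1 : IsEmbedding (fun m => (⟨e m, hsub m⟩ :
      connectedComponent (0 : UniformSpace.Completion G))) :=
    IsEmbedding.subtypeVal.of_comp_iff.1 he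
  have : SecondCountableTopology M := h1.secondCountableTopology
  exact not_separable inferInstance

end Pool.Agent.P.MP_d16342_al
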